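import Mathlib
import Pool.Agent.W31.SN.Defs

/-! # The homological argument (Task4) -/

set_option autoImplicit false

namespace Pool.Agent.W965.SN

open Pool.Agent.W31.SN Equiv

section tuples

variable {R : Type} [CommRing R] {N : ℕ} {G : Type} [Group G]

/-- action on tuples -/
def ga (φ : G →* Matrix.GeneralLinearGroup (Fin N) R) (g : G) (b : Fin N → Fin N → R) :
    Fin N → Fin N → R := fun i => (φ g).val.mulVec (b i)

/-- monomial operations on tuples -/
def ac (b : Fin N → Fin N → R) (σ : Perm (Fin N)) (u : Fin N → Rˣ) : Fin N → Fin N → R :=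
  fun i => (u i : R) • b (σ i)

/-- the standard basis -/
def std : Fin N → Fin N → R := fun i => Pi.single i 1

lemma ga_mul (φ : G →* Matrix.GeneralLinearGroup (Fin N) R) (g h : G) (b : Fin N → Fin N → R) :
    ga φ (g * h) b = ga φ g (ga φ h b) := by
  funext i
  unfold ga
  rw [map_mul, Units.val_mul, Matrix.mulVec_mulVec]

lemma ga_one (φ : G →* Matrix.GeneralLinearGroup (Fin N) R) (b : Fin N → Fin N → R) :
    ga φ 1 b = b := by
  funext i
  unfold ga
  rw [map_one, Units.val_one, Matrix.one_mulVec]

lemma ga_ac (φ : G →* Matrix.GeneralLinearGroup (Fin N) R) (g : G) (b : Fin N → Fin N → R)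
    (σ : Perm (Fin N)) (u : Fin N → Rˣ) : ga φ g (ac b σ u) = ac (ga φ g b) σ u := by
  funext i
  unfold ga ac
  rw [Matrix.mulVec_smul]

lemma ga_inv (φ : G →* Matrix.GeneralLinearGroup (Fin N) R) (g : G) (b c : Fin N → Fin N → R)
    (h : ga φ g b = c) : ga φ g⁻¹ c = b := by
  rw [← h, ← ga_mul, inv_mul_cancel, ga_one]

lemma ac_ac (b : Fin N → Fin N → R) (σ τ : Perm (Fin N)) (u w : Fin N → Rˣ) :
    ac (ac b σ u) τ w = ac b (σ * τ) (fun i => w i * u (τ i)) := by
  funext i
  unfold ac
  rw [smul_smul, Units.val_mul]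
  rfl

lemma ac_one (b : Fin N → Fin N → R) : ac b 1 (fun _ => 1) = b := by
  funext i
  unfold ac
  simp

lemma ga_std (φ : G →* Matrix.GeneralLinearGroup (Fin N) R) (g : G) (i j : Fin N) :
    ga φ g std i j = (φ g).val j i := by
  unfold ga std
  rw [Matrix.mulVec_single_one]
  rfl

lemma ga_std_inj {φ : G →* Matrix.GeneralLinearGroup (Fin N) R} (hφ : Function.Injective φ)
    {g h : G} (hgh : ga φ g std = ga φ h std) : g = h := by
  apply hφ
  apply Units.ext
  ext i j
  rw [← ga_std, hgh, ga_std]

lemma isB_ga (φ : G →* Matrix.GeneralLinearGroup (Fin N) R) (g : G) {b : Fin N → Fin N → R}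
    (hb : IsB b) : IsB (ga φ g b) := by
  have h1 : Matrix.of (ga φ g b) = Matrix.of b * (φ g).val.transpose := by
    ext i j
    rw [Matrix.mul_apply]
    change ((φ g).val.mulVec (b i)) j = _
    unfold Matrix.mulVec dotProduct
    apply Finset.sum_congr rfl
    intro k _
    rw [Matrix.transpose_apply, Matrix.of_apply, mul_comm]
  unfold IsB
  rw [h1, Matrix.det_mul, Matrix.det_transpose]
  apply IsUnit.mul hb
  exact (Matrix.isUnit_iff_isUnit_det _).1 (φ g).isUnit

lemma isB_perm {b : Fin N → Fin N → R} (hb : IsB b) (σ : Perm (Fin N)) : IsB (b ∘ σ) := by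
  have h1 : Matrix.of (b ∘ σ) = (Matrix.of b).submatrix σ id := rfl
  unfold IsB
  rw [h1, Matrix.det_permute]
  apply IsUnit.mul _ hb
  rcases Int.units_eq_one_or (Perm.sign σ) with h | h <;> rw [h] <;> simp

lemma isB_ac {b : Fin N → Fin N → R} (hb : IsB b) (σ : Perm (Fin N)) (u : Fin N → Rˣ) :
    IsB (ac b σ u) := by
  have h1 : Matrix.of (ac b σ u) = Matrix.of (fun i j => (u i : R) * Matrix.of (b ∘ σ) i j) := rfl
  unfold IsB
  rw [h1, Matrix.det_mul_column]
  apply IsUnit.mul _ (isB_perm hb σ)
  rw [← Units.coe_prod]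
  exact Units.isUnit _

lemma isB_std : IsB (std : Fin N → Fin N → R) := by
  have h1 : Matrix.of (std : Fin N → Fin N → R) = 1 := by
    ext i j
    rw [Matrix.of_apply, Matrix.one_apply, std, Pi.single_apply]
    simp only [eq_comm]
  unfold IsB
  rw [h1, Matrix.det_one]
  exact isUnit_one

lemma isB_update {b : Fin N → Fin N → R} (hb : IsB b) (i : Fin N) (u : Rˣ) :
    IsB (Function.update b i ((u : R) • b i)) := by
  have h1 : Matrix.of (Function.update b i ((u : R) • b i)) =
      (Matrix.of b).updateRow i ((u : R) • (Matrix.of b) i) := rfl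
  unfold IsB
  rw [h1, Matrix.det_updateRow_smul, Matrix.updateRow_eq_self]
  exact u.isUnit.mul hb

lemma ac_update {b : Fin N → Fin N → R} (i : Fin N) (u : Rˣ) :
    ac b 1 (Function.update (fun _ => 1) i u) = Function.update b i ((u : R) • b i) := by
  funext k
  unfold ac
  by_cases h : k = i
  · subst h
    simp
  · rw [Function.update_of_ne h, Function.update_of_ne h]
    simp

lemma det_std : (Matrix.of (std : Fin N → Fin N → R)).det = 1 := by
  have h1 : Matrix.of (std : Fin N → Fin N → R) = 1 := by
    ext i j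
    rw [Matrix.of_apply, Matrix.one_apply, std, Pi.single_apply]
    simp only [eq_comm]
  rw [h1, Matrix.det_one]

lemma det_ac_std (σ : Perm (Fin N)) (u : Fin N → Rˣ) :
    (Matrix.of (ac (std : Fin N → Fin N → R) σ u)).det =
      (∏ i, (u i : R)) * ((Perm.sign σ : ℤ) : R) := by
  have h1 : Matrix.of (ac (std : Fin N → Fin N → R) σ u) =
    Matrix.of (fun i j => (u i : R) * ((Matrix.of std).submatrix σ id) i j) := rfl
  rw [h1, Matrix.det_mul_column, Matrix.det_permute, det_std, mul_one]

/-! ### consequences of the relations -/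

variable {A : Type} [AddCommGroup A]

lemma rel_unit {i0 i1 : Fin N} {α : (Fin N → Fin N → R) → A} (hα : Rels i0 i1 α)
    {b : Fin N → Fin N → R} (hb : IsB b) (u : Fin N → Rˣ) : α (ac b 1 u) = α b := by
  classical
  have key : ∀ s : Finset (Fin N), α (ac b 1 (fun i => if i ∈ s then u i else 1)) = α b := by
    intro s
    induction s using Finset.induction_on with
    | empty =>
      simp only [Finset.notMem_empty, if_false]
      rw [ac_one]
    | insert i s his ih =>
      have e : ac b 1 (fun k => if k ∈ insert i s then u k else 1) =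
          Function.update (ac b 1 (fun k => if k ∈ s then u k else 1)) i
            ((u i : R) • (ac b 1 (fun k => if k ∈ s then u k else 1)) i) := by
        funext k
        by_cases h : k = i
        · subst h
          rw [Function.update_self]
          unfold ac
          beta_reduce
          rw [if_pos (Finset.mem_insert_self _ _), if_neg his]
          simp
        · rw [Function.update_of_ne h]
          unfold ac
          have : (k ∈ insert i s) ↔ k ∈ s := by
            rw [Finset.mem_insert]
            exact ⟨fun h2 => h2.resolve_left h, Or.inr⟩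
          simp only [this]
      rw [e, hα.unit _ (isB_ac hb 1 _), ih]
  have := key Finset.univ
  simpa using this

lemma rel_perm {i0 i1 : Fin N} {α : (Fin N → Fin N → R) → A} (hα : Rels i0 i1 α)
    (σ : Perm (Fin N)) : ∀ {b : Fin N → Fin N → R}, IsB b →
      α (b ∘ σ) = (Perm.sign σ : ℤ) • α b := by
  induction σ using Perm.swap_induction_on with
  | one => intro b _; simp
  | swap_mul f x y hxy ih =>
    intro b hb
    have e : b ∘ ⇑(swap x y * f) = (b ∘ swap x y) ∘ f := rfl
    rw [e, ih (isB_perm hb _), hα.perm b hb x y hxy, Perm.sign_mul, Perm.sign_swap hxy]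
    simp

lemma rel_ac {i0 i1 : Fin N} {α : (Fin N → Fin N → R) → A} (hα : Rels i0 i1 α)
    {b : Fin N → Fin N → R} (hb : IsB b) (σ : Perm (Fin N)) (u : Fin N → Rˣ) :
    α (ac b σ u) = (Perm.sign σ : ℤ) • α b := by
  have e : ac b σ u = ac (b ∘ σ) 1 u := rfl
  rw [e, rel_unit hα (isB_perm hb σ), rel_perm hα σ hb]

end tuples

section main

variable {R : Type} [CommRing R] {N : ℕ} {G : Type} [Group G]
  {φ : G →* Matrix.GeneralLinearGroup (Fin N) R}
  {T : Type} [AddCommGroup T] [DistribMulAction G T] (S : AddSubgroup T)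

/-- the bracket `[g | x]` -/
noncomputable def br (g : G) : T →+ ((G →₀ T) ⧸ bdry G T S) :=
  (QuotientAddGroup.mk' (bdry G T S)).comp (Finsupp.singleAddHom g)

lemma br_apply (g : G) (x : T) : br S g x = QuotientAddGroup.mk (Finsupp.single g x) := rfl

lemma br_mul {x : T} (hx : x ∈ S) (p q : G) : br S (p * q) x = br S p x + br S q (p⁻¹ • x) := by
  have h1 : Finsupp.single q (p⁻¹ • x) - Finsupp.single (p * q) x + Finsupp.single p x ∈
      bdry G T S := AddSubgroup.subset_closure ⟨p, q, x, hx, rfl⟩
  have h2 : (QuotientAddGroup.mk (Finsupp.single q (p⁻¹ • x) - Finsupp.single (p * q) x +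
      Finsupp.single p x) : (G →₀ T) ⧸ bdry G T S) = 0 := (QuotientAddGroup.eq_zero_iff _).2 h1
  rw [QuotientAddGroup.mk_add, QuotientAddGroup.mk_sub] at h2
  rw [br_apply, br_apply, br_apply]
  have h3 : (QuotientAddGroup.mk (Finsupp.single (p * q) x) : (G →₀ T) ⧸ bdry G T S) =
    QuotientAddGroup.mk (Finsupp.single p x) + QuotientAddGroup.mk (Finsupp.single q (p⁻¹ • x)) -
    (QuotientAddGroup.mk (Finsupp.single q (p⁻¹ • x)) -
      QuotientAddGroup.mk (Finsupp.single (p * q) x) + QuotientAddGroup.mk (Finsupp.single p x)) := by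
    abel
  rw [h3, h2, sub_zero]

/-- `<g> = [g | g x₀]` -/
noncomputable def ang (x0 : T) (g : G) : (G →₀ T) ⧸ bdry G T S := br S g (g • x0)

lemma smul_z (g : G) (k : ℤ) (x : T) : g • (k • x) = k • (g • x) :=
  map_zsmul (DistribMulAction.toAddMonoidHom T g) k x

variable (hSG : ∀ (g : G) (x : T), x ∈ S → g • x ∈ S) {x0 : T} (hx0 : x0 ∈ S)

include hSG hx0 in
/-- `[h | k x₀] = <k> - <h⁻¹ k>` -/
lemma br_ang (h k : G) : br S h (k • x0) = ang S x0 k - ang S x0 (h⁻¹ * k) := by
  have h1 := br_mul S (hSG k x0 hx0) h (h⁻¹ * k)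
  rw [mul_inv_cancel_left] at h1
  unfold ang
  rw [h1, smul_smul]
  abel

include hx0 in
lemma ang_one : ang S x0 (1 : G) = 0 := by
  unfold ang
  have h1 := br_mul S hx0 (1 : G) 1
  rw [mul_one, inv_one, one_smul] at h1
  rw [one_smul]
  have h2 : br S (1 : G) x0 + br S (1 : G) x0 = br S (1 : G) x0 := h1.symm
  exact add_eq_left.1 h2

/-- monomial elements -/
def Mon (φ : G →* Matrix.GeneralLinearGroup (Fin N) R) (m : G) (σ : Perm (Fin N))
    (u : Fin N → Rˣ) : Prop := ga φ m std = ac std σ u

lemma Mon.mul {m m' : G} {σ σ' : Perm (Fin N)} {u u' : Fin N → Rˣ} (h : Mon φ m σ u)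
    (h' : Mon φ m' σ' u') : Mon φ (m * m') (σ * σ') (fun i => u' i * u (σ' i)) := by
  unfold Mon at h h' ⊢
  rw [ga_mul, h', ga_ac, h, ac_ac]

lemma Mon.inv {m : G} {σ : Perm (Fin N)} {u : Fin N → Rˣ} (h : Mon φ m σ u) :
    Mon φ m⁻¹ σ⁻¹ (fun i => (u (σ⁻¹ i))⁻¹) := by
  unfold Mon at h ⊢
  apply ga_inv
  rw [ga_ac, h, ac_ac, mul_inv_cancel]
  simp only [inv_mul_cancel]
  exact ac_one _

lemma Mon.one : Mon φ 1 1 (fun _ => 1) := by
  unfold Mon
  rw [ga_one, ac_one]

variable {i0 i1 : Fin N} {α : (Fin N → Fin N → R) → T}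
  (hαG : ∀ (g : G) (b : Fin N → Fin N → R), IsB b → α (ga φ g b) = g • α b)
  (hα : Rels i0 i1 α)

include hαG hα in
lemma mon_x0 {m : G} {σ : Perm (Fin N)} {u : Fin N → Rˣ} (h : Mon φ m σ u) :
    m • α std = (Perm.sign σ : ℤ) • α std := by
  rw [← hαG m std isB_std, h, rel_ac hα isB_std]

include hSG hαG hα in
/-- `<g m> = sgn(m) <g> + <m>` -/
lemma ang_mul (hS : α std ∈ S) (g : G) {m : G} {σ : Perm (Fin N)} {u : Fin N → Rˣ}
    (h : Mon φ m σ u) :
    ang S (α std) (g * m) = (Perm.sign σ : ℤ) • ang S (α std) g + ang S (α std) m := by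
  have h1 := mon_x0 hαG hα h
  unfold ang
  rw [mul_smul, h1, smul_z, map_zsmul, map_zsmul, br_mul S (hSG g _ hS), inv_smul_smul, zsmul_add]

variable (hSL : ∀ b : Fin N → Fin N → R, (Matrix.of b).det = 1 → ∃ g : G, ga φ g std = b)

/-- a commuting element -/
lemma comm_of (hφ : Function.Injective φ) {g m : G} {b : Fin N → Fin N → R}
    {σ : Perm (Fin N)} {u : Fin N → Rˣ} (hm : Mon φ m σ u) (hg : ga φ g std = b)
    (h : ga φ m b = ac b σ u) : m * g = g * m := by
  apply ga_std_inj hφ
  rw [ga_mul, ga_mul, hg, h, hm, ga_ac, hg]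

include hSG hαG hα hSL in
/-- even monomial elements fixing the first two basis vectors -/
lemma fix01 (hφ : Function.Injective φ) (h01 : i0 ≠ i1) (hS : α std ∈ S) {m : G}
    {σ : Perm (Fin N)} {u : Fin N → Rˣ} (hm : Mon φ m σ u) (hσ : Perm.sign σ = 1)
    (s0 : σ i0 = i0) (s1 : σ i1 = i1) (u0 : u i0 = 1) (u1 : u i1 = 1) :
    ang S (α std) m = 0 := by
  -- the elementary matrices
  set E1 : Fin N → Fin N → R := Function.update std i0 (std i0 + std i1) with hE1
  set E2 : Fin N → Fin N → R := Function.update E1 i1 (std i0) with hE2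
  set E3 : Fin N → Fin N → R := Function.update E2 i0 (((-1 : Rˣ) : R) • E2 i0) with hE3
  have hd1 : (Matrix.of E1).det = 1 := by
    have e : Matrix.of E1 = (Matrix.of std).updateRow i0 ((Matrix.of std) i0 + (Matrix.of std) i1) :=
      rfl
    rw [e, Matrix.det_updateRow_add_self _ h01, det_std]
  have hE2' : E2 = Function.update (Function.update (std ∘ swap i0 i1) i0 (std i0 + std i1)) i1
      (std i0) := by
    funext k
    by_cases h1 : k = i1
    · subst h1
      rw [hE2, Function.update_self, Function.update_self]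
    · rw [hE2, Function.update_of_ne h1, Function.update_of_ne h1]
      by_cases h0 : k = i0
      · subst h0
        rw [hE1, Function.update_self, Function.update_self]
      · rw [hE1, Function.update_of_ne h0, Function.update_of_ne h0]
        simp [swap_apply_of_ne_of_ne h0 h1]
  have hd2 : (Matrix.of E2).det = -1 := by
    have e : Matrix.of E2 = (Matrix.of (std ∘ swap i0 i1 : Fin N → Fin N → R)).updateRow i0
        ((Matrix.of (std ∘ swap i0 i1 : Fin N → Fin N → R)) i0 +
          (Matrix.of (std ∘ swap i0 i1 : Fin N → Fin N → R)) i1) := by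
      ext k l
      by_cases h0 : k = i0
      · subst h0
        rw [Matrix.updateRow_self]
        simp only [Matrix.of_apply, Function.comp_apply, swap_apply_left, swap_apply_right,
          Pi.add_apply]
        rw [hE2, Function.update_of_ne h01, hE1, Function.update_self, Pi.add_apply, add_comm]
      · rw [Matrix.updateRow_ne h0]
        simp only [Matrix.of_apply, Function.comp_apply]
        by_cases h1 : k = i1
        · subst h1
          rw [hE2, Function.update_self, swap_apply_right]
        · rw [hE2, Function.update_of_ne h1, hE1, Function.update_of_ne h0,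
            swap_apply_of_ne_of_ne h0 h1]
    rw [e, Matrix.det_updateRow_add_self _ h01]
    have e2 : Matrix.of (std ∘ swap i0 i1 : Fin N → Fin N → R) =
      (Matrix.of std).submatrix (swap i0 i1) id := rfl
    rw [e2, Matrix.det_permute, det_std, Perm.sign_swap h01]
    simp
  have hB2 : IsB E2 := by
    unfold IsB
    rw [hd2]
    exact isUnit_one.neg
  have hd3 : (Matrix.of E3).det = 1 := by
    have e : Matrix.of E3 = (Matrix.of E2).updateRow i0 (((-1 : Rˣ) : R) • (Matrix.of E2) i0) := rfl
    rw [e, Matrix.det_updateRow_smul, Matrix.updateRow_eq_self, hd2]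
    simp
  obtain ⟨g1, hg1⟩ := hSL E1 hd1
  obtain ⟨g3, hg3⟩ := hSL E3 hd3
  have mstd : ∀ k, ga φ m std k = (u k : R) • std (σ k) := fun k => by
    have := congrFun hm k
    exact this
  have m0 : (φ m).val.mulVec (std i0) = std i0 := by
    have := mstd i0
    rw [s0, u0] at this
    simpa [ga] using this
  have m1 : (φ m).val.mulVec (std i1) = std i1 := by
    have := mstd i1
    rw [s1, u1] at this
    simpa [ga] using this
  have sne : ∀ k, k ≠ i0 → σ k ≠ i0 := fun k hk h => hk (σ.injective (h.trans s0.symm))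
  have sne1 : ∀ k, k ≠ i1 → σ k ≠ i1 := fun k hk h => hk (σ.injective (h.trans s1.symm))
  have c1 : m * g1 = g1 * m := by
    apply comm_of hφ hm hg1
    funext k
    unfold ga ac
    by_cases h0 : k = i0
    · subst h0
      rw [hE1, Function.update_self, s0, Function.update_self, Matrix.mulVec_add, m0, m1, u0]
      simp
    · rw [hE1, Function.update_of_ne h0, Function.update_of_ne (sne k h0)]
      exact mstd k
  have c3 : m * g3 = g3 * m := by
    apply comm_of hφ hm hg3
    funext k
    unfold ga ac
    by_cases h0 : k = i0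
    · subst h0
      rw [hE3, Function.update_self, s0, Function.update_self, u0, Matrix.mulVec_smul, hE2,
        Function.update_of_ne h01, hE1, Function.update_self, Matrix.mulVec_add, m0, m1]
      simp
    · rw [hE3, Function.update_of_ne h0, Function.update_of_ne (sne k h0)]
      by_cases h1 : k = i1
      · subst h1
        rw [hE2, Function.update_self, s1, Function.update_self, m0, u1]
        simp
      · rw [hE2, Function.update_of_ne h1, Function.update_of_ne (sne1 k h1), hE1,
          Function.update_of_ne h0, Function.update_of_ne (sne k h0)]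
        exact mstd k
  -- the relation
  have hrel := hα.add std isB_std
  have r1 : α E1 = g1 • α std := by rw [← hαG g1 std isB_std, hg1]
  have r3 : α E2 = g3 • α std := by
    rw [← hαG g3 std isB_std, hg3, hE3, hα.unit E2 hB2]
  rw [← hE1, ← hE2, r1, r3] at hrel
  have hb := congrArg (br S m) hrel
  rw [map_add, map_sub, map_zero] at hb
  have hinv := hm.inv
  have hsi : Perm.sign σ⁻¹ = 1 := by rw [Perm.sign_inv, hσ]
  have key : ∀ g : G, m * g = g * m → br S m (g • α std) = -ang S (α std) m⁻¹ := by
    intro g hc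
    rw [br_ang S hSG hS]
    have e : m⁻¹ * g = g * m⁻¹ := by
      rw [inv_mul_eq_iff_eq_mul, ← mul_assoc, hc, mul_inv_cancel_right]
    rw [e, ang_mul S hSG hαG hα hS g hinv, hsi]
    simp
  have k1 := key 1 (by rw [mul_one, one_mul])
  rw [one_smul] at k1
  rw [k1, key g1 c1, key g3 c3] at hb
  have hmi : ang S (α std) m⁻¹ = 0 := by
    have : -ang S (α std) m⁻¹ = 0 := by
      have h5 : -ang S (α std) m⁻¹ - -ang S (α std) m⁻¹ + -ang S (α std) m⁻¹ =
        -ang S (α std) m⁻¹ := by abel
      rw [h5] at hb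
      exact hb
    exact neg_eq_zero.1 this
  have h6 := ang_mul S hSG hαG hα hS m hinv
  rw [mul_inv_cancel, ang_one S hS, hsi, hmi, add_zero] at h6
  simpa using h6.symm

end main

end Pool.Agent.W965.SN
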