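import Mathlib
import Pool.Agent.W965.SN.Hom

/-! # The homological argument (Task4), second part -/

set_option autoImplicit false

namespace Pool.Agent.W965.SN

open Pool.Agent.W31.SN Equiv

/-- the data of the argument -/
structure Dat (R : Type) [CommRing R] (N : ℕ) (G : Type) [Group G]
    (φ : G →* Matrix.GeneralLinearGroup (Fin N) R) (T : Type) [AddCommGroup T]
    [DistribMulAction G T] (S : AddSubgroup T) (i : Fin 5 → Fin N)
    (α : (Fin N → Fin N → R) → T) : Prop where
  hi : Function.Injective i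
  hφ : Function.Injective φ
  hSG : ∀ (g : G) (x : T), x ∈ S → g • x ∈ S
  hαS : ∀ b, IsB b → α b ∈ S
  hαG : ∀ (g : G) (b : Fin N → Fin N → R), IsB b → α (ga φ g b) = g • α b
  hα : Rels (i 0) (i 1) α
  hSL : ∀ b : Fin N → Fin N → R, (Matrix.of b).det = 1 → ∃ g : G, ga φ g std = b

section main

variable {R : Type} [CommRing R] {N : ℕ} {G : Type} [Group G]
  {φ : G →* Matrix.GeneralLinearGroup (Fin N) R}
  {T : Type} [AddCommGroup T] [DistribMulAction G T] {S : AddSubgroup T} {i : Fin 5 → Fin N}
  {α : (Fin N → Fin N → R) → T}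

namespace Dat

variable (H : Dat R N G φ T S i α)
include H

lemma ine {a b : Fin 5} (h : a ≠ b) : i a ≠ i b := fun h2 => h (H.hi h2)

lemma hS : α std ∈ S := H.hαS std isB_std

lemma amul (g : G) {m : G} {σ : Perm (Fin N)} {u : Fin N → Rˣ} (h : Mon φ m σ u) :
    ang S (α std) (g * m) = (Perm.sign σ : ℤ) • ang S (α std) g + ang S (α std) m :=
  ang_mul S H.hSG H.hαG H.hα H.hS g h

lemma amul_even (g : G) {m : G} {σ : Perm (Fin N)} {u : Fin N → Rˣ} (h : Mon φ m σ u)
    (hσ : Perm.sign σ = 1) :
    ang S (α std) (g * m) = ang S (α std) g + ang S (α std) m := by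
  rw [H.amul g h, hσ]
  simp

lemma aone : ang S (α std) (1 : G) = 0 := ang_one S H.hS

lemma ainv_even {m : G} {σ : Perm (Fin N)} {u : Fin N → Rˣ} (h : Mon φ m σ u)
    (hσ : Perm.sign σ = 1) : ang S (α std) m⁻¹ = -ang S (α std) m := by
  have h1 := H.amul_even m h.inv (by rw [Perm.sign_inv, hσ])
  rw [mul_inv_cancel, H.aone] at h1
  exact (neg_eq_of_add_eq_zero_right h1.symm).symm

lemma exPerm {τ : Perm (Fin N)} (hτ : Perm.sign τ = 1) : ∃ p : G, Mon φ p τ (fun _ => 1) := by
  apply H.hSL
  rw [det_ac_std, hτ]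
  simp

/-- even monomial elements fixing two basis vectors -/
lemma fix2 {m : G} {σ : Perm (Fin N)} {u : Fin N → Rˣ} (hm : Mon φ m σ u)
    (hσ : Perm.sign σ = 1) {a b : Fin N} (hab : a ≠ b)
    (s0 : σ a = a) (s1 : σ b = b) (u0 : u a = 1) (u1 : u b = 1) :
    ang S (α std) m = 0 := by
  -- an even permutation with `i 0 ↦ a`, `i 1 ↦ b`
  have hτ : ∃ τ : Perm (Fin N), Perm.sign τ = 1 ∧ τ (i 0) = a ∧ τ (i 1) = b := by
    have h01 : i 0 ≠ i 1 := H.ine (by decide)
    set b' := swap (i 0) a b with hb'
    have hb0 : b' ≠ i 0 := by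
      intro h
      have : b = a := by
        have h2 : swap (i 0) a b' = b := by rw [hb', swap_apply_self]
        rw [h, swap_apply_left] at h2
        exact h2.symm
      exact hab this.symm
    set τ0 := swap (i 0) a * swap (i 1) b' with hτ0
    have t0 : τ0 (i 0) = a := by
      rw [hτ0, Perm.mul_apply, swap_apply_of_ne_of_ne h01 hb0.symm, swap_apply_left]
    have t1 : τ0 (i 1) = b := by
      rw [hτ0, Perm.mul_apply, swap_apply_left, hb', swap_apply_self]
    rcases Int.units_eq_one_or (Perm.sign τ0) with h | h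
    · exact ⟨τ0, h, t0, t1⟩
    · refine ⟨τ0 * swap (i 2) (i 3), ?_, ?_, ?_⟩
      · rw [Perm.sign_mul, h, Perm.sign_swap (H.ine (by decide))]
        decide
      · rw [Perm.mul_apply, swap_apply_of_ne_of_ne (H.ine (by decide)) (H.ine (by decide)), t0]
      · rw [Perm.mul_apply, swap_apply_of_ne_of_ne (H.ine (by decide)) (H.ine (by decide)), t1]
  obtain ⟨τ, hτs, ht0, ht1⟩ := hτ
  obtain ⟨p, hp⟩ := H.exPerm hτs
  have hpi := hp.inv
  have hm' := (hpi.mul hm).mul hp
  have hsign : Perm.sign (τ⁻¹ * σ * τ) = 1 := by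
    rw [Perm.sign_mul, Perm.sign_mul, Perm.sign_inv, hτs, hσ]
    simp
  have hti : Perm.sign τ⁻¹ = 1 := by rw [Perm.sign_inv, hτs]
  have h0 : ang S (α std) (p⁻¹ * m * p) = 0 := by
    apply fix01 S H.hSG H.hαG H.hα H.hSL H.hφ (H.ine (by decide)) H.hS hm' hsign
    · rw [Perm.mul_apply, Perm.mul_apply, ht0, s0, ← ht0]
      simp
    · rw [Perm.mul_apply, Perm.mul_apply, ht1, s1, ← ht1]
      simp
    · simp only [ht0, u0, s0]
      simp
    · simp only [ht1, u1, s1]
      simp
  have e : m = p * (p⁻¹ * m * p) * p⁻¹ := by group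
  have h1 := H.amul_even (p * (p⁻¹ * m * p)) hpi hti
  rw [← e, H.amul_even p hm' hsign, h0, add_zero, H.ainv_even hp hτs, add_neg_cancel] at h1
  exact h1

lemma even_perm {τ : Perm (Fin N)} (hτ : Perm.sign τ = 1) :
    ∃ p : G, Mon φ p τ (fun _ => 1) ∧ ang S (α std) p = 0 := by
  have hmem : τ ∈ Subgroup.closure {σ : Perm (Fin N) | Perm.IsThreeCycle σ} := by
    rw [Perm.closure_three_cycles_eq_alternating]
    exact hτ
  clear hτ
  have key : Perm.sign τ = 1 ∧ ∃ p : G, Mon φ p τ (fun _ => 1) ∧ ang S (α std) p = 0 := by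
    induction hmem using Subgroup.closure_induction with
    | mem σ h3 =>
      have hs : Perm.sign σ = 1 := h3.sign
      refine ⟨hs, ?_⟩
      obtain ⟨p, hp⟩ := H.exPerm hs
      refine ⟨p, hp, ?_⟩
      -- two fixed points
      have hcard : σ.support.card = 3 := h3.card_support
      have hc2 : 1 < (Finset.univ.image i \ σ.support).card := by
        have h5 : (Finset.univ.image i).card = 5 := by
          rw [Finset.card_image_of_injective _ H.hi]
          simp
        have h6 := Finset.le_card_sdiff σ.support (Finset.univ.image i)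
        omega
      obtain ⟨a, ha, b, hb, hab⟩ := Finset.one_lt_card.1 hc2
      rw [Finset.mem_sdiff, Perm.mem_support, not_not] at ha hb
      exact H.fix2 hp hs hab ha.2 hb.2 rfl rfl
    | one => exact ⟨Perm.sign_one, 1, Mon.one, H.aone⟩
    | mul σ σ' _ _ h h' =>
      obtain ⟨s, p, hp, hp0⟩ := h
      obtain ⟨s', p', hp', hp0'⟩ := h'
      refine ⟨by rw [Perm.sign_mul, s, s', one_mul], p * p', ?_, ?_⟩
      · have := hp.mul hp'
        simp only [mul_one] at this
        exact this
      · rw [H.amul_even p hp' s', hp0, hp0', add_zero]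
    | inv σ _ h =>
      obtain ⟨s, p, hp, hp0⟩ := h
      refine ⟨by rw [Perm.sign_inv, s], p⁻¹, ?_, ?_⟩
      · have := hp.inv
        simp only [inv_one] at this
        exact this
      · rw [H.ainv_even hp s, hp0, neg_zero]
  exact key.2

/-- **Even monomial elements.** -/
lemma even {m : G} {σ : Perm (Fin N)} {u : Fin N → Rˣ} (hm : Mon φ m σ u)
    (hσ : Perm.sign σ = 1) : ang S (α std) m = 0 := by
  obtain ⟨p, hp, hp0⟩ := H.even_perm hσ
  have hd := hp.inv.mul hm
  rw [inv_mul_cancel] at hd
  set w : Fin N → Rˣ := fun k => u k * ((1 : Rˣ))⁻¹ with hw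
  -- the diagonal part
  have hd' : Mon φ (p⁻¹ * m) 1 w := hd
  set v : Fin N → Rˣ := Function.update (Function.update (Function.update (fun _ => 1) (i 0)
    (w (i 0))) (i 1) (w (i 1))) (i 2) (w (i 0) * w (i 1))⁻¹ with hv
  have n01 : i 0 ≠ i 1 := H.ine (by decide)
  have n02 : i 0 ≠ i 2 := H.ine (by decide)
  have n12 : i 1 ≠ i 2 := H.ine (by decide)
  have hdet : (Matrix.of (ac (std : Fin N → Fin N → R) 1 v)).det = 1 := by
    rw [det_ac_std]
    have : ∏ k, (v k : R) = 1 := by
      rw [← Units.coe_prod]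
      have e : ∏ k, v k = 1 := by
        rw [hv, Finset.prod_update_of_mem (Finset.mem_univ _)]
        have hmem1 : i 1 ∈ Finset.univ \ {i 2} := by simp [n12]
        rw [Finset.prod_update_of_mem hmem1]
        have hmem0 : i 0 ∈ (Finset.univ \ {i 2}) \ {i 1} := by simp [n01, n02]
        rw [Finset.prod_update_of_mem hmem0]
        simp only [Finset.prod_const_one, mul_one]
        rw [mul_comm (w (i 1)) (w (i 0)), inv_mul_cancel]
      rw [e, Units.val_one]
    rw [this]
    simp
  obtain ⟨d1, hd1⟩ := H.hSL _ hdet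
  have hd1' : Mon φ d1 1 v := hd1
  have z1 : ang S (α std) d1 = 0 := by
    apply H.fix2 hd1' Perm.sign_one (H.ine (by decide : (3 : Fin 5) ≠ 4)) rfl rfl
    · rw [hv, Function.update_of_ne (H.ine (by decide)), Function.update_of_ne (H.ine (by decide)),
        Function.update_of_ne (H.ine (by decide))]
    · rw [hv, Function.update_of_ne (H.ine (by decide)), Function.update_of_ne (H.ine (by decide)),
        Function.update_of_ne (H.ine (by decide))]
  have hd2 := hd1'.inv.mul hd'
  have v0 : v (i 0) = w (i 0) := by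
    rw [hv, Function.update_of_ne n02, Function.update_of_ne n01, Function.update_self]
  have v1 : v (i 1) = w (i 1) := by
    rw [hv, Function.update_of_ne n12, Function.update_self]
  have z2 : ang S (α std) (d1⁻¹ * (p⁻¹ * m)) = 0 := by
    apply H.fix2 hd2 (by simp) n01
    · simp
    · simp
    · simp [v0]
    · simp [v1]
  have e : m = p * (d1 * (d1⁻¹ * (p⁻¹ * m))) := by group
  have hd12 := hd1'.mul hd2
  have a1 := H.amul_even p hd12 (by simp)
  rw [← e, hp0, H.amul_even d1 hd2 (by simp), z1, z2] at a1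
  simpa using a1

/-- an odd monomial element -/
lemma exOdd : ∃ m : G, ∃ u, Mon φ m (swap (i 0) (i 1)) u := by
  have n01 : i 0 ≠ i 1 := H.ine (by decide)
  set u : Fin N → Rˣ := Function.update (fun _ => 1) (i 0) (-1) with hu
  obtain ⟨m, hm⟩ := H.hSL (ac std (swap (i 0) (i 1)) u) (by
    rw [det_ac_std, Perm.sign_swap n01]
    have : ∏ k, (u k : R) = -1 := by
      rw [← Units.coe_prod, hu, Finset.prod_update_of_mem (Finset.mem_univ _)]
      simp
    rw [this]
    simp)
  exact ⟨m, u, hm⟩

end Dat

open Classical in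
/-- the constant for odd monomial elements -/
noncomputable def kap (S : AddSubgroup T) (φ : G →* Matrix.GeneralLinearGroup (Fin N) R)
    (i : Fin 5 → Fin N) (α : (Fin N → Fin N → R) → T) (σ : Perm (Fin N)) :
    (G →₀ T) ⧸ bdry G T S :=
  if Perm.sign σ = 1 then 0 else
    if h : ∃ m : G, ∃ u, Mon φ m (swap (i 0) (i 1)) u then ang S (α std) h.choose else 0

namespace Dat

variable (H : Dat R N G φ T S i α)
include H

lemma ang_mon {m : G} {σ : Perm (Fin N)} {u : Fin N → Rˣ} (hm : Mon φ m σ u) :
    ang S (α std) m = kap S φ i α σ := by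
  unfold kap
  rcases Int.units_eq_one_or (Perm.sign σ) with hσ | hσ
  · rw [if_pos hσ]
    exact H.even hm hσ
  · rw [if_neg (by rw [hσ]; decide), dif_pos H.exOdd]
    obtain ⟨u', hm'⟩ := H.exOdd.choose_spec
    set m' := H.exOdd.choose
    have h1 := hm'.inv.mul hm
    have hs : Perm.sign ((swap (i 0) (i 1))⁻¹ * σ) = 1 := by
      rw [Perm.sign_mul, Perm.sign_inv, Perm.sign_swap (H.ine (by decide)), hσ]
      decide
    have h2 := H.amul_even m' h1 hs
    rw [mul_inv_cancel_left, H.even h1 hs, add_zero] at h2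
    exact h2

lemma exRep {b : Fin N → Fin N → R} (hb : IsB b) :
    ∃ (g : G) (u : Rˣ), b = ga φ g (ac std 1 (Function.update (fun _ => 1) (i 2) u)) := by
  obtain ⟨u, hu⟩ := hb
  have hd : (Matrix.of (Function.update b (i 2) (((u⁻¹ : Rˣ) : R) • b (i 2)))).det = 1 := by
    have h1 : Matrix.of (Function.update b (i 2) (((u⁻¹ : Rˣ) : R) • b (i 2))) =
      (Matrix.of b).updateRow (i 2) (((u⁻¹ : Rˣ) : R) • (Matrix.of b) (i 2)) := rfl
    rw [h1, Matrix.det_updateRow_smul, Matrix.updateRow_eq_self, ← hu]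
    simp
  obtain ⟨g, hg⟩ := H.hSL _ hd
  refine ⟨g, u, ?_⟩
  rw [ga_ac, hg, ac_update]
  funext k
  by_cases h : k = i 2
  · subst h
    rw [Function.update_self, Function.update_self, smul_smul]
    simp
  · rw [Function.update_of_ne h, Function.update_of_ne h]

end Dat

open Classical in
/-- `{b}` -/
noncomputable def val (S : AddSubgroup T) (φ : G →* Matrix.GeneralLinearGroup (Fin N) R)
    (i : Fin 5 → Fin N) (α : (Fin N → Fin N → R) → T) (b : Fin N → Fin N → R) :
    (G →₀ T) ⧸ bdry G T S :=
  if h : ∃ (g : G) (u : Rˣ), b = ga φ g (ac std 1 (Function.update (fun _ => 1) (i 2) u))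
    then ang S (α std) h.choose else 0

namespace Dat

variable (H : Dat R N G φ T S i α)
include H

lemma val_rep {b : Fin N → Fin N → R} {g : G} {σ : Perm (Fin N)} {v : Fin N → Rˣ}
    (h : b = ga φ g (ac std σ v)) :
    val S φ i α b = (Perm.sign σ : ℤ) • ang S (α std) g + kap S φ i α σ := by
  have hb : IsB b := by
    rw [h]
    exact isB_ga φ g (isB_ac isB_std _ _)
  have hex := H.exRep hb
  unfold val
  rw [dif_pos hex]
  obtain ⟨u, hu⟩ := hex.choose_spec
  set g0 := hex.choose
  have h1 : ga φ (g⁻¹ * g0) (ac std 1 (Function.update (fun _ => 1) (i 2) u)) = ac std σ v := by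
    rw [ga_mul, ← hu, h, ← ga_mul, inv_mul_cancel, ga_one]
  rw [ga_ac] at h1
  set w : Fin N → Rˣ := Function.update (fun _ => 1) (i 2) u with hw
  have h2 : Mon φ (g⁻¹ * g0) σ (fun k => (w k)⁻¹ * v k) := by
    unfold Mon
    have h3 : ac (ac (ga φ (g⁻¹ * g0) std) 1 w) 1 (fun k => (w k)⁻¹) = ga φ (g⁻¹ * g0) std := by
      rw [ac_ac]
      simp only [Perm.coe_one, id_eq, inv_mul_cancel, mul_one]
      exact ac_one _
    rw [← h3, h1, ac_ac, mul_one]
    rfl
  have h4 := H.amul g h2
  rw [mul_inv_cancel_left, H.ang_mon h2] at h4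
  exact h4

lemma kap_even {σ : Perm (Fin N)} (hσ : Perm.sign σ = 1) : kap S φ i α σ = 0 := by
  unfold kap
  rw [if_pos hσ]

lemma val_one {b : Fin N → Fin N → R} {g : G} {v : Fin N → Rˣ}
    (h : b = ga φ g (ac std 1 v)) : val S φ i α b = ang S (α std) g := by
  rw [H.val_rep h, H.kap_even Perm.sign_one, Perm.sign_one]
  simp

lemma val_ac {b : Fin N → Fin N → R} (hb : IsB b) (σ : Perm (Fin N)) (u : Fin N → Rˣ) :
    val S φ i α (ac b σ u) = (Perm.sign σ : ℤ) • val S φ i α b + kap S φ i α σ := by
  obtain ⟨g, w, hg⟩ := H.exRep hb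
  rw [H.val_one hg]
  have h : ac b σ u = ga φ g (ac std σ (fun k => u k * (Function.update (fun _ => 1) (i 2) w :
      Fin N → Rˣ) (σ k))) := by
    conv_lhs => rw [hg]
    rw [← ga_ac, ac_ac, one_mul]
  exact H.val_rep h

lemma val_scale {b : Fin N → Fin N → R} (hb : IsB b) (u : Fin N → Rˣ) :
    val S φ i α (ac b 1 u) = val S φ i α b := by
  rw [H.val_ac hb, H.kap_even Perm.sign_one, Perm.sign_one]
  simp

lemma val_ga {b : Fin N → Fin N → R} (hb : IsB b) (h : G) :
    val S φ i α b - val S φ i α (ga φ h⁻¹ b) = br S h (α b) := by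
  obtain ⟨g, w, hg⟩ := H.exRep hb
  have h1 : ga φ h⁻¹ b = ga φ (h⁻¹ * g) (ac std 1 (Function.update (fun _ => 1) (i 2) w)) := by
    rw [ga_mul, ← hg]
  rw [H.val_one hg, H.val_one h1, ← br_ang S H.hSG H.hS]
  congr 1
  conv_rhs => rw [hg]
  rw [H.hαG _ _ (isB_ac isB_std _ _), rel_unit H.hα isB_std]

/-- the two elementary operations -/
lemma isB_E1 {b : Fin N → Fin N → R} (hb : IsB b) :
    IsB (Function.update b (i 0) (b (i 0) + b (i 1))) := by
  have e : Matrix.of (Function.update b (i 0) (b (i 0) + b (i 1))) =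
    (Matrix.of b).updateRow (i 0) ((Matrix.of b) (i 0) + (Matrix.of b) (i 1)) := rfl
  unfold IsB
  rw [e, Matrix.det_updateRow_add_self _ (H.ine (by decide))]
  exact hb

lemma E2_eq {b : Fin N → Fin N → R} :
    Function.update (Function.update b (i 0) (b (i 0) + b (i 1))) (i 1) (b (i 0)) =
      Function.update (b ∘ swap (i 0) (i 1)) (i 0)
        ((b ∘ swap (i 0) (i 1)) (i 0) + (b ∘ swap (i 0) (i 1)) (i 1)) := by
  have n01 : i 0 ≠ i 1 := H.ine (by decide)
  funext k
  by_cases h1 : k = i 1
  · subst h1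
    rw [Function.update_self, Function.update_of_ne n01.symm, Function.comp_apply,
      swap_apply_right]
  · rw [Function.update_of_ne h1]
    by_cases h0 : k = i 0
    · subst h0
      rw [Function.update_self, Function.update_self, Function.comp_apply, Function.comp_apply,
        swap_apply_left, swap_apply_right, add_comm]
    · rw [Function.update_of_ne h0, Function.update_of_ne h0, Function.comp_apply,
        swap_apply_of_ne_of_ne h0 h1]

lemma isB_E2 {b : Fin N → Fin N → R} (hb : IsB b) :
    IsB (Function.update (Function.update b (i 0) (b (i 0) + b (i 1))) (i 1) (b (i 0))) := by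
  rw [H.E2_eq]
  exact H.isB_E1 (isB_perm hb _)

end Dat

/-- the alternating sum over the elementary operations -/
noncomputable def FF (S : AddSubgroup T) (φ : G →* Matrix.GeneralLinearGroup (Fin N) R)
    (i : Fin 5 → Fin N) (α : (Fin N → Fin N → R) → T) (b : Fin N → Fin N → R) :
    (G →₀ T) ⧸ bdry G T S :=
  val S φ i α b - val S φ i α (Function.update b (i 0) (b (i 0) + b (i 1))) +
    val S φ i α (Function.update (Function.update b (i 0) (b (i 0) + b (i 1))) (i 1) (b (i 0)))

namespace Dat

variable (H : Dat R N G φ T S i α)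
include H

omit H in
lemma ga_E1 (g : G) (b : Fin N → Fin N → R) :
    ga φ g (Function.update b (i 0) (b (i 0) + b (i 1))) =
      Function.update (ga φ g b) (i 0) (ga φ g b (i 0) + ga φ g b (i 1)) := by
  funext k
  unfold ga
  by_cases h : k = i 0
  · subst h
    rw [Function.update_self, Function.update_self, Matrix.mulVec_add]
  · rw [Function.update_of_ne h, Function.update_of_ne h]

omit H in
lemma ga_E2 (g : G) (b : Fin N → Fin N → R) :
    ga φ g (Function.update (Function.update b (i 0) (b (i 0) + b (i 1))) (i 1) (b (i 0))) =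
      Function.update (Function.update (ga φ g b) (i 0) (ga φ g b (i 0) + ga φ g b (i 1))) (i 1)
        (ga φ g b (i 0)) := by
  rw [← ga_E1]
  funext k
  by_cases h : k = i 1
  · subst h
    rw [Function.update_self]
    unfold ga
    rw [Function.update_self]
  · rw [Function.update_of_ne h]
    unfold ga
    rw [Function.update_of_ne h]

lemma FF_ga {b : Fin N → Fin N → R} (hb : IsB b) (h : G) :
    FF S φ i α (ga φ h⁻¹ b) = FF S φ i α b := by
  have k1 := H.val_ga hb h
  have k2 := H.val_ga (H.isB_E1 hb) h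
  have k3 := H.val_ga (H.isB_E2 hb) h
  rw [ga_E1] at k2
  rw [ga_E2] at k3
  have hrel := congrArg (br S h) (H.hα.add b hb)
  rw [map_add, map_sub, map_zero] at hrel
  rw [← k1, ← k2, ← k3] at hrel
  unfold FF
  rw [← sub_eq_zero]
  have : ∀ a1 a2 a3 b1 b2 b3 : (G →₀ T) ⧸ bdry G T S,
      a1 - b1 - (a2 - b2) + (a3 - b3) = 0 → b1 - b2 + b3 - (a1 - a2 + a3) = 0 := by
    intro a1 a2 a3 b1 b2 b3 h
    have e : b1 - b2 + b3 - (a1 - a2 + a3) = -(a1 - b1 - (a2 - b2) + (a3 - b3)) := by abel
    rw [e, h, neg_zero]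
  exact this _ _ _ _ _ _ hrel

lemma FF_const {b : Fin N → Fin N → R} (hb : IsB b) : FF S φ i α b = FF S φ i α std := by
  obtain ⟨g, u, hg⟩ := H.exRep hb
  set w : Fin N → Rˣ := Function.update (fun _ => 1) (i 2) u with hw
  have h1 : FF S φ i α b = FF S φ i α (ac std 1 w) := by
    rw [← H.FF_ga hb g]
    congr 1
    exact ga_inv φ g _ _ hg.symm
  rw [h1]
  have w0 : w (i 0) = 1 := by rw [hw, Function.update_of_ne (H.ine (by decide))]
  have w1 : w (i 1) = 1 := by rw [hw, Function.update_of_ne (H.ine (by decide))]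
  have s0 : ac (std : Fin N → Fin N → R) 1 w (i 0) = std (i 0) := by
    unfold ac
    rw [w0]
    simp
  have s1 : ac (std : Fin N → Fin N → R) 1 w (i 1) = std (i 1) := by
    unfold ac
    rw [w1]
    simp
  have e1 : Function.update (ac (std : Fin N → Fin N → R) 1 w) (i 0) (std (i 0) + std (i 1)) =
      ac (Function.update std (i 0) (std (i 0) + std (i 1))) 1 w := by
    funext k
    by_cases h : k = i 0
    · subst h
      unfold ac
      rw [Function.update_self, w0]
      simp
    · rw [Function.update_of_ne h]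
      unfold ac
      rw [Perm.coe_one, id_eq, Function.update_of_ne h]
  have e2 : Function.update (Function.update (ac (std : Fin N → Fin N → R) 1 w) (i 0)
      (std (i 0) + std (i 1))) (i 1) (std (i 0)) =
      ac (Function.update (Function.update std (i 0) (std (i 0) + std (i 1))) (i 1) (std (i 0)))
        1 w := by
    rw [e1]
    funext k
    by_cases h : k = i 1
    · subst h
      unfold ac
      rw [Function.update_self, w1]
      simp
    · rw [Function.update_of_ne h]
      unfold ac
      rw [Perm.coe_one, id_eq, Function.update_of_ne h]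
  unfold FF
  rw [s0, s1, e2, e1, H.val_scale isB_std, H.val_scale (H.isB_E1 isB_std),
    H.val_scale (H.isB_E2 isB_std)]

lemma kap_swap {a b : Fin N} (hab : a ≠ b) :
    kap S φ i α (swap a b) = 2 • FF S φ i α std := by
  have n01 : i 0 ≠ i 1 := H.ine (by decide)
  have h0 : kap S φ i α (swap a b) = kap S φ i α (swap (i 0) (i 1)) := by
    unfold kap
    rw [Perm.sign_swap hab, Perm.sign_swap n01]
  rw [h0]
  set s : Fin N → Fin N → R := std ∘ swap (i 0) (i 1) with hs
  have hBs : IsB s := isB_perm isB_std _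
  have h1 : FF S φ i α s = FF S φ i α std := H.FF_const hBs
  have h2 := H.val_ac isB_std (swap (i 0) (i 1)) (fun _ => 1)
  have h3 : ac (std : Fin N → Fin N → R) (swap (i 0) (i 1)) (fun _ => 1) = s := by
    funext k
    unfold ac
    simp [hs]
  rw [h3, Perm.sign_swap n01] at h2
  -- the elementary operations on the swapped tuple
  have e2 := H.E2_eq (b := (std : Fin N → Fin N → R))
  have e3 := H.E2_eq (b := s)
  have hss : s ∘ swap (i 0) (i 1) = std := by
    funext k
    rw [hs]
    simp
  rw [hss] at e3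
  rw [← hs] at e2
  have f1 : FF S φ i α s = val S φ i α s -
      val S φ i α (Function.update (Function.update std (i 0) (std (i 0) + std (i 1))) (i 1)
        (std (i 0))) + val S φ i α (Function.update std (i 0) (std (i 0) + std (i 1))) := by
    unfold FF
    rw [e3, e2]
  have f2 : FF S φ i α std = val S φ i α std -
      val S φ i α (Function.update std (i 0) (std (i 0) + std (i 1))) +
      val S φ i α (Function.update (Function.update std (i 0) (std (i 0) + std (i 1))) (i 1)
        (std (i 0))) := rfl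
  have f3 : FF S φ i α s + FF S φ i α std = val S φ i α s + val S φ i α std := by
    rw [f1, f2]; abel
  rw [h1] at f3
  have f4 : val S φ i α s = -val S φ i α std + kap S φ i α (swap (i 0) (i 1)) := by
    rw [h2]
    simp
  rw [two_nsmul, f3, f4]
  abel

/-- **The argument.** -/
theorem main : ∃ Ψ : (Fin N → Fin N → R) → ((G →₀ T) ⧸ bdry G T S),
    Rels (i 0) (i 1) Ψ ∧
    ∀ (g : G) (b : Fin N → Fin N → R), IsB b →
      Ψ (fun k => (φ g⁻¹).val.mulVec (b k)) - Ψ b =
        QuotientAddGroup.mk (Finsupp.single g (α b)) := by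
  refine ⟨fun b => FF S φ i α std - val S φ i α b, ⟨?_, ?_, ?_⟩, ?_⟩
  · intro b hb j k hjk
    have h := H.val_ac hb (swap j k) (fun _ => 1)
    have h3 : ac b (swap j k) (fun _ => 1) = b ∘ swap j k := by
      funext l
      unfold ac
      simp
    rw [h3, Perm.sign_swap hjk, H.kap_swap hjk] at h
    rw [h]
    simp only [Units.val_neg, Units.val_one, neg_smul, one_smul, two_nsmul]
    abel
  · intro b hb j u
    rw [← ac_update, H.val_scale hb]
  · intro b hb
    have h := H.FF_const hb
    unfold FF at h ⊢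
    rw [← h]
    abel
  · intro g b hb
    have h := H.val_ga hb g
    have e : (fun k => (φ g⁻¹).val.mulVec (b k)) = ga φ g⁻¹ b := rfl
    simp only [e]
    rw [← br_apply, ← h]
    abel

end Dat

end main

/-- Part 4. -/
theorem done : Task4 := by
  intro R _ N hN G _ φ hφ hrange T _ _ S hSG α hαS hαG hα
  set i : Fin 5 → Fin N := fun k => ⟨k.val, by omega⟩ with hi
  have hSL : ∀ b : Fin N → Fin N → R, (Matrix.of b).det = 1 → ∃ g : G, ga φ g std = b := by
    intro b hb
    have hdet : (Matrix.of b).transpose.det = 1 := by rw [Matrix.det_transpose, hb]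
    have hU : IsUnit (Matrix.of b).transpose.det := by rw [hdet]; exact isUnit_one
    have hg : Matrix.GeneralLinearGroup.mk'' (Matrix.of b).transpose hU ∈ Set.range φ := by
      rcases hrange with h | h
      · rw [h]
        exact Set.mem_univ _
      · rw [h]
        exact hdet
    obtain ⟨g, hg⟩ := hg
    refine ⟨g, ?_⟩
    funext k l
    rw [ga_std, hg]
    rfl
  have H : Dat R N G φ T S i α := {
    hi := fun a b h => by
      have h2 := congrArg (fun x : Fin N => x.val) h
      exact Fin.ext h2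
    hφ := hφ
    hSG := hSG
    hαS := hαS
    hαG := hαG
    hα := hα
    hSL := hSL }
  exact H.main

end Pool.Agent.W965.SN
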